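import Mathlib
import Pool.Agent.H14.GP.Defs
import Pool.Agent.H24.HF.Defs

/-!
# MP_103a5c_HF (HalfGaps): definitions

Under RH a positive proportion of the normalised gaps between zeros of zeta is at most `b`, for EVERY `b > 1/2`
(joint work of helper67 and helper84; /team-store/H84_half.md, /team-store/H67_half.md).

PLAN.  `1/2 < δ < 1`, `δ < b`.  Window `χ` (smooth, even, compact support, `χ 0 = 1`, `k = cosT χ ≥ 0`),
`ψ = k * 1_[-δ/2, δ/2]`, `cosT ψ (u) = χ(u) sin(πδu)/(πu)`; `P(t) = Σ_{p ≤ T^D} G(log p/log T) p^(-1/2-it)`,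
`G(u) = χ(u) sin(πδu)/π`; `Σ_i w_i ψ(x_i) = δ - 2 Re P + small`.  `V_n(z) = (1 + iπ(z - 1/2)/n)^n`, `n` even,
`Re V_n(z) ≥ - C/n` on the strip `0 ≤ Re z ≤ 1`.  `C(t) = Σ_{k<M} e^{-iβk} h_k(t)`, `h_k = cf (-1) (B_j) k`, `β = πδθ/M`.
The mean of `V_n(δ - 2P) |C|^2` tends to `Σ_{k≤m<M} e^{iβ(m-k)} [w^(m-k)] V_n(δ + 2κ(w))`, whose real part is negative.
-/

open MeasureTheory Set Filter Topology
open scoped Real ContDiff ComplexConjugate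

namespace Pool.Agent.H67.HF

open Pool.Agent.H6 Pool.Agent.H14.GP Pool.Agent.H24.HF

/-- The window. -/
structure Win2 (χ : ℝ → ℝ) (D : ℝ) : Prop where
  D_pos : 1 ≤ D
  smooth : ContDiff ℝ ∞ χ
  even : ∀ u, χ (-u) = χ u
  supp : ∀ u, D ≤ |u| → χ u = 0
  zero : χ 0 = 1
  nonneg : ∀ u, 0 ≤ χ u
  le_one : ∀ u, χ u ≤ 1
  pos : ∀ x, 0 ≤ cosT χ x

/-- `cosT ψ`: `χ(u) sin(πδu)/(πu) = χ(u) δ sinc(πδu)` -/
noncomputable def hd (χ : ℝ → ℝ) (δ u : ℝ) : ℝ := χ u * (δ * Real.sinc (π * δ * u))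

/-- the smoothed indicator function of `[-δ/2, δ/2]` -/
noncomputable def psi (χ : ℝ → ℝ) (δ : ℝ) : ℝ → ℝ := cosT (hd χ δ)

/-- `G(u) = χ(u) sin(πδu)/π = u hd(u)` -/
noncomputable def Gd (χ : ℝ → ℝ) (δ u : ℝ) : ℝ := u * hd χ δ u

/-- `P(t)` -/
noncomputable def PP1 (χ : ℝ → ℝ) (δ D T t : ℝ) : ℂ := ev t (bbW (Gd χ δ) D T)

/-- `V_n(z) = (1 + i π (z - 1/2) / n)^n` -/
noncomputable def Vn (n : ℕ) (z : ℂ) : ℂ := (1 + (π : ℂ) * Complex.I * (z - 1 / 2) / (n : ℂ)) ^ n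

/-- `h_k(t)`, coefficients of `exp (- ∑ B_j y^j)` -/
noncomputable def hh (Gc : ℕ → ℝ → ℝ) (T t : ℝ) (k : ℕ) : ℂ := cf (-1) (fun j => ev t (bb (Gc j) T)) k

/-- `C(t) = ∑_{k<M} e^{-iβk} h_k(t)` -/
noncomputable def CC (β : ℝ) (M : ℕ) (Gc : ℕ → ℝ → ℝ) (T t : ℝ) : ℂ :=
  ∑ k ∈ Finset.range M, Complex.exp (-((β * k : ℝ) : ℂ) * Complex.I) * hh Gc T t k

/-- `κ(w) = ∑_j ⟨G, G_j⟩ w^j`, `⟨G, G'⟩ = ∫_{x>0} G G' dx/x` -/
noncomputable def kaps (G : ℝ → ℝ) (Gc : ℕ → ℝ → ℝ) : PowerSeries ℝ :=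
  PowerSeries.mk fun j => kp Gc G j

/-- the limit of the mean value of `P^j h_k conj h_m` -/
noncomputable def LamP (κ : PowerSeries ℝ) (j k m : ℕ) : ℝ :=
  if k ≤ m then PowerSeries.coeff (m - k) ((-κ) ^ j) else 0

/-- `V_n(δ + 2 κ(w))` as a power series -/
noncomputable def Vps (n : ℕ) (δ : ℝ) (κ : PowerSeries ℝ) : PowerSeries ℂ :=
  (1 + PowerSeries.C ((π : ℂ) * Complex.I / (n : ℂ)) *
    (PowerSeries.C ((δ - 1 / 2 : ℝ) : ℂ) + 2 * κ.map (algebraMap ℝ ℂ))) ^ n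

/-- the limit of the mean value of `V_n(δ - 2P) |C|^2` -/
noncomputable def Jn (n M : ℕ) (δ β : ℝ) (κ : PowerSeries ℝ) : ℂ :=
  ∑ k ∈ Finset.range M, ∑ m ∈ Finset.range M,
    if k ≤ m then Complex.exp (((β * ((m - k : ℕ) : ℝ) : ℝ) : ℂ) * Complex.I) *
      PowerSeries.coeff (m - k) (Vps n δ κ) else 0

/-- the points `x_i = L (t - γ_i) / (2 π)` (as in `SS`) -/
noncomputable def xx {ι : Type*} (γ : ι → ℝ) (L t : ℝ) (i : ι) : ℝ := L * (t - γ i) / (2 * π)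

/-- within distance `Q` of `t` (in units of the mean spacing) there is no multiple zero and no two zeros at
distance `< b`. -/
structure Sep {ι : Type*} (γ w : ι → ℝ) (b Q L t : ℝ) : Prop where
  simple : ∀ i, |xx γ L t i| ≤ Q → w i ≤ 1
  sep : ∀ i j, i ≠ j → |xx γ L t i| ≤ Q → |xx γ L t j| ≤ Q → b ≤ |xx γ L t i - xx γ L t j|

end Pool.Agent.H67.HF
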