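import Mathlib
import Pool.Agent.H67.HF.Defs2
import Pool.Agent.H98.HF.Hb
import Pool.Agent.H98.HF.Nf
import Pool.Agent.H98.GP.Mk
import Pool.Agent.H6.Final

/-!
# MP_103a5c_HF: bridge between `Win2`, `psi`, `PP1` and helper98's `Ker`, `win`, `CPs`, `SPs`; moments of `P` and `h_k`
-/

open MeasureTheory Set Filter Topology FourierTransform
open scoped Real ContDiff ComplexConjugate SchwartzMap

namespace Pool.Agent.H67.HF

open Pool.Agent Pool.Agent.H6 Pool.Agent.H14.GP Pool.Agent.H98.GP Pool.Agent.H24.HF Pool.Agent.H98.HF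

theorem Win2.nice {χ : ℝ → ℝ} {D : ℝ} (hW : Win2 χ D) : Nice χ :=
  ⟨hW.smooth, hW.even, D, lt_of_lt_of_le one_pos hW.D_pos, hW.supp⟩

theorem Br_decay {χ : ℝ → ℝ} (h : Nice χ) (n : ℕ) : ∃ C, 0 ≤ C ∧ ∀ u, |cosT χ u| ≤ C / (1 + u ^ 2) ^ n := by
  have hcC : HasCompactSupport (fun x => (χ x : ℂ)) := h.hasCompactSupport.comp_left (g := fun x : ℝ => (x : ℂ)) (by simp)
  have hgC : ContDiff ℝ ∞ (fun x => (χ x : ℂ)) := Complex.ofRealCLM.contDiff.comp h.smooth
  set f : 𝓢(ℝ, ℂ) := hcC.toSchwartzMap hgC with hf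
  set Fs : 𝓢(ℝ, ℂ) := 𝓕 f with hFs
  obtain ⟨D0, hD00, hD0⟩ := Fs.decay 0 0
  obtain ⟨D6, hD60, hD6⟩ := Fs.decay (2 * n) 0
  have hval : ∀ u, Fs u = (cosT χ u : ℂ) := by
    intro u
    rw [hFs, SchwartzMap.fourier_coe]
    have : (f : ℝ → ℂ) = fun x => (χ x : ℂ) := rfl
    rw [this, fourier_ofReal_even h.integrable h.even]
  refine ⟨2 ^ n * (D0 + D6), by positivity, fun u => ?_⟩
  rw [le_div_iff₀ (by positivity)]
  have h0 := hD0 u
  have h6 := hD6 u
  rw [norm_iteratedFDeriv_zero, hval, Complex.norm_real, Real.norm_eq_abs] at h0 h6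
  rw [pow_zero, one_mul] at h0
  rw [Real.norm_eq_abs, pow_mul, sq_abs] at h6
  have hb : (1 + u ^ 2) ^ n ≤ 2 ^ n * (1 + (u ^ 2) ^ n) := by
    have hu := sq_nonneg u
    rcases le_total (u ^ 2) 1 with h1 | h1
    · calc (1 + u ^ 2) ^ n ≤ 2 ^ n := pow_le_pow_left₀ (by positivity) (by linarith) n
        _ ≤ 2 ^ n * (1 + (u ^ 2) ^ n) := by
          have : 0 ≤ (2 : ℝ) ^ n * (u ^ 2) ^ n := by positivity
          linarith
    · calc (1 + u ^ 2) ^ n ≤ (2 * u ^ 2) ^ n := pow_le_pow_left₀ (by positivity) (by linarith) n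
        _ = 2 ^ n * (u ^ 2) ^ n := mul_pow _ _ _
        _ ≤ 2 ^ n * (1 + (u ^ 2) ^ n) := by
          have : 0 ≤ (2 : ℝ) ^ n := by positivity
          nlinarith
  calc |cosT χ u| * (1 + u ^ 2) ^ n ≤ |cosT χ u| * (2 ^ n * (1 + (u ^ 2) ^ n)) :=
        mul_le_mul_of_nonneg_left hb (abs_nonneg _)
    _ = 2 ^ n * (|cosT χ u| + (u ^ 2) ^ n * |cosT χ u|) := by ring
    _ ≤ 2 ^ n * (D0 + D6) := mul_le_mul_of_nonneg_left (add_le_add h0 h6) (by positivity)

theorem ker_of_win2 {χ : ℝ → ℝ} {D : ℝ} (hW : Win2 χ D) : Ker D (cosT χ) := by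
  have hn := hW.nice
  have ht := (hn.reg hW.supp).test
  refine ⟨ht.cont, ht.even, hW.pos, Br_decay hn, fun ξ hξ => ht.supp ξ hξ, ?_⟩
  have h1 := hn.inv 0
  rw [hW.zero] at h1
  rw [← h1]
  unfold cosT
  simp

theorem cosT_win_eq {χ : ℝ → ℝ} {D δ : ℝ} (hW : Win2 χ D) (hδ : 0 < δ) (ξ : ℝ) :
    cosT (win (cosT χ) δ) ξ = hd χ δ ξ := by
  have hk := ker_of_win2 hW
  unfold hd
  rcases eq_or_ne ξ 0 with rfl | hξ
  · rw [cosT_win_zero hk hδ, hW.zero, mul_zero, Real.sinc_zero]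
    ring
  · rw [cosT_win hk hδ hξ, hW.nice.inv ξ, Real.sinc_of_ne_zero (by positivity)]
    have := Real.pi_ne_zero
    field_simp

theorem psi_eq_win {χ : ℝ → ℝ} {D δ : ℝ} (hW : Win2 χ D) (hδ : 0 < δ) : psi χ δ = win (cosT χ) δ := by
  have hk := ker_of_win2 hW
  have hD : 0 < D := lt_of_lt_of_le one_pos hW.D_pos
  funext x
  have h1 := (nice_win hk hD hδ).2.1 x
  rw [← h1]
  unfold psi
  congr 1
  funext ξ
  exact (cosT_win_eq hW hδ ξ).symm

theorem Gd_eq (χ : ℝ → ℝ) {δ : ℝ} (hδ : 0 < δ) (x : ℝ) : Gd χ δ x = χ x * (Real.sin (π * δ * x) / π) := by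
  unfold Gd hd
  rcases eq_or_ne x 0 with rfl | hx
  · simp
  · rw [Real.sinc_of_ne_zero (by positivity)]
    have := Real.pi_ne_zero
    field_simp

theorem Gd_smooth {χ : ℝ → ℝ} {D : ℝ} (hW : Win2 χ D) {δ : ℝ} (hδ : 0 < δ) : ContDiff ℝ ∞ (Gd χ δ) := by
  have e : Gd χ δ = fun x => χ x * (Real.sin (π * δ * x) / π) := funext fun x => Gd_eq χ hδ x
  rw [e]
  have h1 : ContDiff ℝ ∞ (fun x : ℝ => Real.sin (π * δ * x) / π) :=
    ((Real.contDiff_sin.of_le le_top).comp (contDiff_const.mul contDiff_id)).div_const π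
  exact hW.smooth.mul h1

theorem ev_bbW (G : ℝ → ℝ) {D : ℝ} (hD : 0 < D) {T : ℝ} (hT : 0 < T) (t : ℝ) :
    ev t (bbW G D T) = (CPs D G (Real.log T) t : ℂ) - (SPs D G (Real.log T) t : ℂ) * Complex.I := by
  unfold bbW
  rw [ev_bb _ (Real.rpow_pos_of_pos hT D), Real.log_rpow hT]
  have hPS : PS 1 (D * Real.log T) = PS D (Real.log T) := by
    unfold PS
    rw [one_mul]
  have harg : ∀ p : ℕ, D * (Real.log p / (D * Real.log T)) = Real.log p / Real.log T := by
    intro p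
    rcases eq_or_ne (Real.log T) 0 with h | h
    · rw [h]; simp
    · have := hD.ne'
      field_simp
  have h1 : CP (fun x => G (D * x)) (D * Real.log T) t = CPs D G (Real.log T) t := by
    unfold CP CPs
    rw [hPS]
    refine Finset.sum_congr rfl fun p _ => ?_
    simp only [harg]
  have h2 : SP (fun x => G (D * x)) (D * Real.log T) t = SPs D G (Real.log T) t := by
    unfold SP SPs
    rw [hPS]
    refine Finset.sum_congr rfl fun p _ => ?_
    simp only [harg]
  rw [h1, h2]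

/-- a continuous function dominated by a `Mom` function -/
theorem Br_of_le {F G : ℝ → ℝ → ℝ} (hF : ∀ᶠ T in atTop, Continuous (F T)) (hG : Mom G)
    (h : ∀ᶠ T in atTop, ∀ t, |F T t| ≤ G T t) : Mom F := by
  refine Mom.of_le hF hG fun c C _ _ => ⟨1, ?_⟩
  filter_upwards [h] with T hT t _
  have := le_abs_self (G T t)
  have := hT t
  linarith

theorem Br_abs {F : ℝ → ℝ → ℝ} (hF : Mom F) : Mom (fun T t => |F T t|) := by
  refine Mom.of_le ?_ hF fun c C _ _ => ⟨1, ?_⟩
  · filter_upwards [hF.cont] with T h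
    exact h.abs
  · refine Eventually.of_forall fun T t _ => ?_
    rw [abs_abs]; linarith

theorem continuous_PP1 (χ : ℝ → ℝ) (δ : ℝ) (D : ℝ) {T : ℝ} (hT : 0 < T) : Continuous (fun t => PP1 χ δ D T t) :=
  Mk_continuous_ev _ (Real.rpow_pos_of_pos hT D)

theorem continuous_hh (Gc : ℕ → ℝ → ℝ) {T : ℝ} (hT : 0 < T) (k : ℕ) : Continuous (fun t => hh Gc T t k) := by
  unfold hh
  induction k using Nat.strong_induction_on with
  | _ k ih =>
    rcases k with _ | k
    · simp only [cf]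
      exact continuous_const
    · simp only [cf]
      have hj : ∀ j : Fin (k + 1), Continuous (fun t => (((j : ℕ) : ℝ) + 1) • (ev t (bb (Gc ((j : ℕ) + 1)) T) *
          cf (-1) (fun j => ev t (bb (Gc j) T)) (k - j))) := fun j =>
        ((Mk_continuous_ev _ hT).mul (ih _ (by omega))).const_smul (((j : ℕ) : ℝ) + 1)
      exact (continuous_finsetSum _ fun j _ => hj j).const_smul ((-1 : ℝ) / ((k : ℝ) + 1))

theorem continuous_CC (β : ℝ) (M : ℕ) (Gc : ℕ → ℝ → ℝ) {T : ℝ} (hT : 0 < T) : Continuous (fun t => CC β M Gc T t) := by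
  unfold CC
  exact continuous_finsetSum _ fun k _ => continuous_const.mul (continuous_hh Gc hT k)

section
variable {γ w : PC.Z → ℝ} {F : ℝ → Finset PC.Z} {CR : ℝ}

theorem mom_P (I : Inputs γ w F CR) (hP : PoissonInput γ w 1 (PC.arch 1)) {χ : ℝ → ℝ} {D δ : ℝ} (hW : Win2 χ D)
    (hδ : 0 < δ) : Mom (fun T t => ‖PP1 χ δ D T t‖) := by
  have hD : 0 < D := lt_of_lt_of_le one_pos hW.D_pos
  have h0 : Gd χ δ 0 = 0 := by unfold Gd; rw [zero_mul]
  have hs : ∀ x, D ≤ x → Gd χ δ x = 0 := fun x hx => by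
    unfold Gd hd
    rw [hW.supp x (hx.trans (le_abs_self x)), zero_mul, mul_zero]
  have h1 := Br_abs (mom_CPs I (a := 1) (by norm_num) hP (Gd_smooth hW hδ) h0 hD hs)
  have h2 := Br_abs (mom_SPs I (a := 1) (by norm_num) hP (Gd_smooth hW hδ) h0 hD hs)
  refine Br_of_le ?_ (h1.add h2) ?_
  · filter_upwards [eventually_gt_atTop (0 : ℝ)] with T hT
    exact (continuous_PP1 χ δ D hT).norm
  · filter_upwards [eventually_gt_atTop (0 : ℝ)] with T hT t
    rw [abs_of_nonneg (norm_nonneg _)]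
    unfold PP1
    rw [ev_bbW _ hD hT]
    refine (norm_sub_le _ _).trans ?_
    rw [norm_mul, Complex.norm_I, mul_one, Complex.norm_real, Complex.norm_real, Real.norm_eq_abs, Real.norm_eq_abs]

theorem explicit_P (I : Inputs γ w F CR) (hP : PoissonInput γ w 1 (PC.arch 1)) {χ : ℝ → ℝ} {D δ : ℝ} (hW : Win2 χ D)
    (hδ : 0 < δ) {v : ℝ → ℝ} (hv : Wgt v) :
    Tendsto (fun T => EE v T (fun t => (((δ : ℂ) - 2 * PP1 χ δ D T t).re -
      SS γ w (win (cosT χ) δ) (Real.log T) t) ^ 2)) atTop (𝓝 0) := by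
  have hD : 0 < D := lt_of_lt_of_le one_pos hW.D_pos
  have h1 := win_approx I (a := 1) (by norm_num) hP hv (ker_of_win2 hW) hD hδ
  refine h1.congr' ?_
  filter_upwards [eventually_gt_atTop (0 : ℝ)] with T hT
  congr 1
  funext t
  congr 2
  have e : (fun x => cosT (cosT χ) x * (Real.sin (π * δ * x) / π)) = Gd χ δ := by
    funext x
    rw [hW.nice.inv x, Gd_eq χ hδ x]
  rw [e]
  unfold PP1
  rw [ev_bbW _ hD hT]
  simp

theorem mom_h (I : Inputs γ w F CR) {M : ℕ} {θ : ℝ} {Gc : ℕ → ℝ → ℝ} (hG : Cells1 M θ Gc) (k : ℕ) :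
    Mom (fun T t => ‖hh Gc T t k‖) := by
  have hMp : (0 : ℝ) < M := by
    have := hG.M_pos
    exact_mod_cast (by omega : 0 < M)
  obtain ⟨a, ha, hlow⟩ := hG.low
  have hb : ∀ j, Mom (fun T t => ‖ev t (bb (Gc j) T)‖) := by
    intro j
    have hθ0 := hG.θ_pos
    have hθ1 := hG.θ_lt
    refine mom_norm_bb I (hG.smooth j) (α := min a (θ / 2)) (β := θ) (lt_min ha (by linarith))
      ((min_le_right _ _).trans_lt (by linarith)) hθ1 ?_
    intro x hx
    rcases hx with hx | hx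
    · exact hlow j x (hx.trans (min_le_left _ _))
    · by_contra hne
      have h1 := (hG.cell j x hne).2
      have hj : j < M := by
        by_contra hj
        exact hne (hG.out j (Or.inr (not_lt.1 hj)) x)
      have h2 : θ * (j : ℝ) / M ≤ θ := by
        rw [div_le_iff₀ hMp]
        have : (j : ℝ) ≤ M := by exact_mod_cast hj.le
        exact mul_le_mul_of_nonneg_left this hθ0.le
      linarith
  induction k using Nat.strong_induction_on with
  | _ k ih =>
    rcases k with _ | k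
    · refine Br_of_le ?_ (Mom.const 1) (Eventually.of_forall fun T t => ?_)
      · filter_upwards [eventually_gt_atTop (0 : ℝ)] with T hT
        exact (continuous_hh Gc hT 0).norm
      · simp [hh, cf]
    · have h1 : Mom (fun T t => ∑ j : Fin (k + 1), ((k : ℝ) + 1) * (‖ev t (bb (Gc ((j : ℕ) + 1)) T)‖ * ‖hh Gc T t (k - j)‖)) :=
        Mom.sum Finset.univ fun j _ => ((hb _).mul (ih _ (by omega))).const_mul _
      refine Br_of_le ?_ h1 (Eventually.of_forall fun T t => ?_)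
      · filter_upwards [eventually_gt_atTop (0 : ℝ)] with T hT
        exact (continuous_hh Gc hT (k + 1)).norm
      · rw [abs_of_nonneg (norm_nonneg _)]
        unfold hh
        rw [cf, norm_smul]
        have h2 : ‖(-1 : ℝ) / ((k : ℝ) + 1)‖ ≤ 1 := by
          rw [norm_div, norm_neg, norm_one, Real.norm_eq_abs, abs_of_pos (by positivity), div_le_one (by positivity)]
          have : (0 : ℝ) ≤ k := Nat.cast_nonneg k
          linarith
        refine (mul_le_of_le_one_left (norm_nonneg _) h2).trans ?_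
        refine (norm_sum_le _ _).trans (Finset.sum_le_sum fun j _ => ?_)
        rw [norm_smul, norm_mul]
        refine mul_le_mul_of_nonneg_right ?_ (by positivity)
        rw [Real.norm_eq_abs, abs_of_pos (by positivity)]
        have : ((j : ℕ) : ℝ) ≤ k := by
          have := j.2
          exact_mod_cast (by omega : (j : ℕ) ≤ k)
        linarith

end

end Pool.Agent.H67.HF
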