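import Mathlib
import Pool.Agent.H67.HF.Br
import Pool.Agent.H87.HF.L5
import Pool.Agent.H98.HF.He
import Pool.Agent.H68.HF.Mean
import Pool.Agent.H26.GH.E

/-!
# MP_103a5c_HF (HalfGaps): the final theorem
-/

open MeasureTheory Set Filter Topology
open scoped Real ContDiff ComplexConjugate

namespace Pool.Agent.H67.HF

open Pool.Agent Pool.Agent.H6 Pool.Agent.H14.GP Pool.Agent.H98.GP Pool.Agent.H26.GH Pool.Agent.H24.HF

theorem Main2_wgt : ∃ v : ℝ → ℝ, Wgt v ∧ 0 < ∫ x, v x := by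
  let b : ContDiffBump (2 : ℝ) := ⟨1 / 2, 1, by norm_num, by norm_num⟩
  refine ⟨b, ⟨b.contDiff, ⟨1, 3, by norm_num, by norm_num, fun x hx => ?_⟩, fun x => b.nonneg⟩, b.integral_pos⟩
  apply b.zero_of_le_dist
  rw [Real.dist_eq]
  show (1 : ℝ) ≤ |x - 2|
  by_contra h
  rw [not_le, abs_lt] at h
  exact hx ⟨by linarith, by linarith⟩

theorem Main2_Vn (n : ℕ) (z : ℂ) : Pool.Agent.H98.HF.Vn n z = Vn n z := by
  unfold Pool.Agent.H98.HF.Vn Vn
  congr 2
  ring

theorem half_gaps (RH : RiemannHypothesis) {b : ℝ} (hb : 1 / 2 < b) :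
    ∃ c : ℝ, 0 < c ∧ ∀ᶠ T in atTop, (1 + c) * PC.norm T ≤ PC.pairCount T 0 b := by
  obtain ⟨δ, h1, h2, hδb⟩ : ∃ δ : ℝ, 1 / 2 < δ ∧ δ < 1 ∧ δ < b := by
    refine ⟨min ((1 / 2 + b) / 2) (3 / 4), lt_min (by linarith) (by norm_num), ?_, ?_⟩
    · exact (min_le_right _ _).trans_lt (by norm_num)
    · exact (min_le_left _ _).trans_lt (by linarith)
  have hδ : 0 < δ := by linarith
  obtain ⟨CR, I⟩ := exists_inputs RH
  have hP : PoissonInput gZ wZ 1 (PC.arch 1) := poissonInput (zetaFacts RH) (by norm_num)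
  obtain ⟨C0, hC0, hfin⟩ := Pool.Agent.H98.HF.half_of_EE RH
  obtain ⟨χ, D, M, θ, Gc, n, hW, hG, hn, hn0, hJ⟩ := H87HF.functional_half h1 h2 (C0 + 1) (by linarith)
  obtain ⟨v, hv, hvpos⟩ := Main2_wgt
  set β : ℝ := π * δ * θ / M with hβ
  have hM : (0 : ℝ) < M := by
    have := hG.M_pos
    exact_mod_cast (by omega : 0 < M)
  have hnp : (0 : ℝ) < n := by exact_mod_cast hn0
  -- moments
  have mP := mom_P I hP hW hδ
  have mC : Mom (fun T t => ‖CC β M Gc T t‖) := by
    refine Br_of_le ?_ (Mom.sum (Finset.range M) fun k _ => mom_h I hG k) (Eventually.of_forall fun T t => ?_)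
    · filter_upwards [eventually_gt_atTop (0 : ℝ)] with T hT
      exact (continuous_CC β M Gc hT).norm
    · rw [abs_of_nonneg (norm_nonneg _)]
      refine (norm_sum_le _ _).trans (Finset.sum_le_sum fun k _ => ?_)
      rw [norm_mul]
      have : ‖Complex.exp (-((β * k : ℝ) : ℂ) * Complex.I)‖ = 1 := by
        rw [← Complex.ofReal_neg, Complex.norm_exp_ofReal_mul_I]
      rw [this, one_mul]
  have mz : Mom (fun T t => ‖(δ : ℂ) - 2 * PP1 χ δ D T t‖) := by
    refine Br_of_le ?_ ((Mom.const δ).add (mP.const_mul 2)) (Eventually.of_forall fun T t => ?_)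
    · filter_upwards [eventually_gt_atTop (0 : ℝ)] with T hT
      have := continuous_PP1 χ δ D hT
      fun_prop
    · rw [abs_of_nonneg (norm_nonneg _)]
      have h3 := norm_sub_le (δ : ℂ) (2 * PP1 χ δ D T t)
      rw [norm_mul, Complex.norm_real, Real.norm_eq_abs, abs_of_pos hδ, Complex.norm_two] at h3
      exact h3
  -- limits of the means
  have l1 := Pool.Agent.H68.HF.mean_V hv hG hW hδ n β
  have l2 := Pool.Agent.H68.HF.mean_C hv hG β
  have l3 : Tendsto (fun T => EE v T (fun t => ‖CC β M Gc T t‖ ^ 2 * (Vn n ((δ : ℂ) - 2 * PP1 χ δ D T t)).re)) atTop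
      (𝓝 ((∫ x, v x) * (Jn n M δ β (kaps (Gd χ δ) Gc)).re)) := by
    have l4 := (Complex.continuous_re.tendsto _).comp l1
    rw [Complex.re_ofReal_mul] at l4
    refine l4.congr' ?_
    filter_upwards [eventually_gt_atTop (0 : ℝ)] with T hT
    have cP := continuous_PP1 χ δ D hT
    have cC := continuous_CC β M Gc hT
    show (EC v T _).re = _
    unfold EC EE
    rw [Complex.re_ofReal_mul]
    congr 1
    have hint : Integrable (fun t => (v (t / T) : ℂ) *
        (Vn n ((δ : ℂ) - 2 * PP1 χ δ D T t) * (CC β M Gc T t * conj (CC β M Gc T t)))) := by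
      have hc : Continuous (fun t => (v (t / T) : ℂ) *
        (Vn n ((δ : ℂ) - 2 * PP1 χ δ D T t) * (CC β M Gc T t * conj (CC β M Gc T t)))) := by
        have hvc : Continuous v := hv.smooth.continuous
        have h5 : Continuous (fun t => conj (CC β M Gc T t)) := Complex.continuous_conj.comp cC
        have h6 : Continuous (fun t => Vn n ((δ : ℂ) - 2 * PP1 χ δ D T t)) := by
          unfold Vn
          fun_prop
        fun_prop
      refine hc.integrable_of_hasCompactSupport ?_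
      refine HasCompactSupport.mul_right ?_
      exact (wscs hv hT).comp_left (g := fun x : ℝ => (x : ℂ)) Complex.ofReal_zero
    have := Complex.reCLM.integral_comp_comm hint
    simp only [Complex.reCLM_apply] at this
    rw [← this]
    refine integral_congr_ae (ae_of_all _ fun t => ?_)
    show ((v (t / T) : ℂ) * (Vn n ((δ : ℂ) - 2 * PP1 χ δ D T t) * (CC β M Gc T t * conj (CC β M Gc T t)))).re =
      v (t / T) * (‖CC β M Gc T t‖ ^ 2 * (Vn n ((δ : ℂ) - 2 * PP1 χ δ D T t)).re)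
    rw [Complex.re_ofReal_mul, Complex.mul_conj, Complex.re_mul_ofReal, Complex.normSq_eq_norm_sq]
    ring
  refine hfin v hv δ b hδ hδb D (cosT χ) (ker_of_win2 hW) n hn hn0 (fun T t => ‖CC β M Gc T t‖ ^ 2) (mC.pow 2)
    (fun T t => by positivity) (fun T t => (δ : ℂ) - 2 * PP1 χ δ D T t) ?_ mz (explicit_P I hP hW hδ hv) ?_
  · filter_upwards [eventually_gt_atTop (0 : ℝ)] with T hT
    have := continuous_PP1 χ δ D hT
    fun_prop
  · refine ⟨(∫ x, v x) * M / (2 * n), by positivity, ?_⟩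
    have l5 : Tendsto (fun T => EE v T (fun t => ‖CC β M Gc T t‖ ^ 2 * (Vn n ((δ : ℂ) - 2 * PP1 χ δ D T t)).re) +
        C0 / n * EE v T (fun t => ‖CC β M Gc T t‖ ^ 2)) atTop
        (𝓝 ((∫ x, v x) * (Jn n M δ β (kaps (Gd χ δ) Gc)).re + C0 / n * ((∫ x, v x) * M))) :=
      l3.add (l2.const_mul (C0 / n))
    have h3 : (∫ x, v x) * (Jn n M δ β (kaps (Gd χ δ) Gc)).re + C0 / n * ((∫ x, v x) * M) <
        -((∫ x, v x) * M / (2 * n)) := by
      have h4 : (∫ x, v x) * ((Jn n M δ β (kaps (Gd χ δ) Gc)).re + (C0 + 1) / n * M) < 0 :=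
        mul_neg_of_pos_of_neg hvpos hJ
      have h5 : (∫ x, v x) * ((Jn n M δ β (kaps (Gd χ δ) Gc)).re + (C0 + 1) / n * M) =
          (∫ x, v x) * (Jn n M δ β (kaps (Gd χ δ) Gc)).re + C0 / n * ((∫ x, v x) * M) +
            (∫ x, v x) * M / n := by
        field_simp
        ring
      have h6 : (∫ x, v x) * M / n = 2 * ((∫ x, v x) * M / (2 * n)) := by
        field_simp
      have h7 : 0 < (∫ x, v x) * M / (2 * n) := by positivity
      linarith
    filter_upwards [l5.eventually_lt_const h3] with T hT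
    simp only [Main2_Vn]
    have e : EE v T ((fun T t => ‖CC β M Gc T t‖ ^ 2) T) = EE v T (fun t => ‖CC β M Gc T t‖ ^ 2) := rfl
    rw [e]
    have e2 : -(C0 / (n : ℝ)) * EE v T (fun t => ‖CC β M Gc T t‖ ^ 2) =
        -(C0 / (n : ℝ) * EE v T (fun t => ‖CC β M Gc T t‖ ^ 2)) := by ring
    rw [e2]
    linarith

end Pool.Agent.H67.HF
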