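import Mathlib
import Pool.Agent.H98.GP.Mk
import Pool.Agent.H26.GH.E

/-!
# MP_103a5c_HF: the certificate argument (abstract form)

If `X` has a negative mean, all moments are bounded, `r → 0` in mean square, then for `Q` large the set where
`X + ε W < 0` and `ε ≤ 1`, `ε = C₂/(1+Q²) S₀ + |r|`, has positive density.
-/

open MeasureTheory Set Filter Topology
open scoped Real ContDiff

namespace Pool.Agent.H67.HF

open Pool.Agent.H6 Pool.Agent.H14.GP Pool.Agent.H98.GP Pool.Agent.H26.GH

/-- A continuous function which is at most `c 1_S` has mean at most `c B/T vol(S ∩ [aT, bT])`. -/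
theorem Cert_meas {v : ℝ → ℝ} (hv : Wgt v) : ∃ R B : ℝ, 1 ≤ R ∧ 0 < B ∧ ∀ T : ℝ, 0 < T → ∀ f : ℝ → ℝ, Continuous f →
    ∀ S : Set ℝ, MeasurableSet S → ∀ c : ℝ, 0 ≤ c → (∀ t, t ∉ S → f t ≤ 0) → (∀ t ∈ S, f t ≤ c) →
      EE v T f ≤ c * B / T * volume.real (S ∩ Icc (T / R) (R * T)) := by
  obtain ⟨a, b, ha, hab, hsupp⟩ := hv.supp
  obtain ⟨B, hB⟩ := (isCompact_Icc (a := a) (b := b)).exists_bound_of_continuousOn hv.smooth.continuous.continuousOn
  obtain ⟨R, hR⟩ : ∃ R : ℝ, R = max (max 1 b) (1 / a) := ⟨_, rfl⟩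
  have hR1 : 1 ≤ R := by rw [hR]; exact (le_max_left _ _).trans (le_max_left _ _)
  have hRb : b ≤ R := by rw [hR]; exact (le_max_right _ _).trans (le_max_left _ _)
  have hRa : 1 / a ≤ R := by rw [hR]; exact le_max_right _ _
  refine ⟨R, |B| + 1, hR1, by positivity, fun T hT f hf S hS c hc h0 h1 => ?_⟩
  have hvB : ∀ x, v x ≤ |B| + 1 := by
    intro x
    by_cases hx : x ∈ Icc a b
    · have := hB x hx
      have h2 := le_abs_self B
      have h3 := le_abs_self (v x)
      rw [Real.norm_eq_abs] at this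
      linarith
    · rw [hsupp x hx]; positivity
  have hR0 : 0 < R := by linarith
  set A : Set ℝ := S ∩ Icc (T / R) (R * T) with hA
  have hAm : MeasurableSet A := hS.inter measurableSet_Icc
  have hAf : volume A ≠ ⊤ := ne_top_of_le_ne_top (by simp) (measure_mono inter_subset_right)
  have hpt : ∀ t, v (t / T) * f t ≤ A.indicator (fun _ => c * (|B| + 1)) t := by
    intro t
    by_cases hvt : v (t / T) = 0
    · rw [hvt, zero_mul]
      exact indicator_nonneg (fun _ _ => by positivity) t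
    by_cases hts : t ∈ S
    · have htI : t ∈ Icc (T / R) (R * T) := by
        have hmem : t / T ∈ Icc a b := by
          by_contra h
          exact hvt (hsupp _ h)
        rw [mem_Icc, le_div_iff₀ hT, div_le_iff₀ hT] at hmem
        rw [div_le_iff₀ ha] at hRa
        refine ⟨?_, hmem.2.trans (mul_le_mul_of_nonneg_right hRb hT.le)⟩
        rw [div_le_iff₀ hR0]
        calc T = 1 * T := (one_mul T).symm
          _ ≤ (R * a) * T := mul_le_mul_of_nonneg_right hRa hT.le
          _ = (a * T) * R := by ring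
          _ ≤ t * R := mul_le_mul_of_nonneg_right hmem.1 hR0.le
      rw [indicator_of_mem (show t ∈ A from ⟨hts, htI⟩)]
      calc v (t / T) * f t ≤ v (t / T) * c := mul_le_mul_of_nonneg_left (h1 t hts) (hv.nonneg _)
        _ ≤ (|B| + 1) * c := mul_le_mul_of_nonneg_right (hvB _) hc
        _ = c * (|B| + 1) := mul_comm _ _
    · have : v (t / T) * f t ≤ 0 := mul_nonpos_of_nonneg_of_nonpos (hv.nonneg _) (h0 t hts)
      exact this.trans (indicator_nonneg (fun _ _ => by positivity) t)
  have hint : ∫ t, v (t / T) * f t ≤ ∫ t, A.indicator (fun _ => c * (|B| + 1)) t :=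
    integral_mono (wint hv hT hf) ((integrable_indicator_iff hAm).2 (integrableOn_const hAf)) hpt
  rw [integral_indicator_const _ hAm, smul_eq_mul] at hint
  unfold EE
  calc 1 / T * ∫ t, v (t / T) * f t ≤ 1 / T * (volume.real A * (c * (|B| + 1))) :=
        mul_le_mul_of_nonneg_left hint (by positivity)
    _ = c * (|B| + 1) / T * volume.real A := by ring

theorem cert {v : ℝ → ℝ} (hv : Wgt v) {X W S0 r : ℝ → ℝ → ℝ} (hX : Mom X) (hW : Mom W) (hS : Mom S0) (hr : Mom r)
    (hW0 : ∀ T t, 0 ≤ W T t) (hS0 : ∀ T t, 0 ≤ S0 T t) {l : ℝ} (hl : 0 < l)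
    (hlim : Tendsto (fun T => EE v T (X T)) atTop (𝓝 (-l)))
    (hr0 : Tendsto (fun T => EE v T (fun t => r T t ^ 2)) atTop (𝓝 0)) {C2 : ℝ} (hC2 : 0 ≤ C2) :
    ∃ Q R c : ℝ, 1 ≤ Q ∧ 1 ≤ R ∧ 0 < c ∧ ∀ᶠ T in atTop, ∃ S : Set ℝ, MeasurableSet S ∧ S ⊆ Icc (T / R) (R * T) ∧
      c * T ≤ volume.real S ∧ ∀ t ∈ S, C2 / (1 + Q ^ 2) * S0 T t + |r T t| ≤ 1 ∧
        X T t + (C2 / (1 + Q ^ 2) * S0 T t + |r T t|) * W T t < 0 := by
  obtain ⟨R, B, hR1, hB0, hmeas⟩ := Cert_meas hv
  -- |r| has all moments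
  have hra : Mom (fun T t => |r T t|) := by
    refine Mom.of_le ?_ hr fun c C _ _ => ⟨1, ?_⟩
    · filter_upwards [hr.cont] with T h
      exact h.abs
    · refine Eventually.of_forall fun T t _ => ?_
      rw [abs_abs]; linarith
  have hXa : Mom (fun T t => |X T t|) := by
    refine Mom.of_le ?_ hX fun c C _ _ => ⟨1, ?_⟩
    · filter_upwards [hX.cont] with T h
      exact h.abs
    · refine Eventually.of_forall fun T t _ => ?_
      rw [abs_abs]; linarith
  have hZ : Mom (fun T t => |X T t| + (C2 * S0 T t + |r T t|) * W T t) :=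
    hXa.add (((hS.const_mul C2).add hra).mul hW)
  obtain ⟨K1, hK1⟩ := EE_le_of_Mom hv (hS.mul hW) 1
  obtain ⟨K2, hK2⟩ := EE_le_of_Mom hv hW 2
  obtain ⟨K3, hK3⟩ := EE_le_of_Mom hv hZ 2
  obtain ⟨K4, hK4⟩ := EE_le_of_Mom hv (hZ.mul hS) 1
  -- choose K > 0 dominating
  obtain ⟨K, hK⟩ : ∃ K : ℝ, K = max (max K1 K2) (max K3 K4) ⊔ 1 := ⟨_, rfl⟩
  have hK0 : 1 ≤ K := by rw [hK]; exact le_max_right _ _
  have k1 : K1 ≤ K := by rw [hK]; exact ((le_max_left _ _).trans (le_max_left _ _)).trans (le_max_left _ _)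
  have k2 : K2 ≤ K := by rw [hK]; exact ((le_max_right _ _).trans (le_max_left _ _)).trans (le_max_left _ _)
  have k3 : K3 ≤ K := by rw [hK]; exact ((le_max_left _ _).trans (le_max_right _ _)).trans (le_max_left _ _)
  have k4 : K4 ≤ K := by rw [hK]; exact ((le_max_right _ _).trans (le_max_right _ _)).trans (le_max_left _ _)
  have hKp : 0 < K := by linarith
  -- choose Q with C2/(1+Q^2) * K ≤ l/16
  obtain ⟨Q, hQ⟩ : ∃ Q : ℝ, Q = 1 + 16 * C2 * K / l := ⟨_, rfl⟩
  have hQ1 : 1 ≤ Q := by
    rw [hQ]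
    have : 0 ≤ 16 * C2 * K / l := by positivity
    linarith
  have hQ2 : Q ≤ 1 + Q ^ 2 := by nlinarith [sq_nonneg (Q - 1)]
  have hQp : 0 < 1 + Q ^ 2 := by positivity
  obtain ⟨q, hq⟩ : ∃ q : ℝ, q = C2 / (1 + Q ^ 2) := ⟨_, rfl⟩
  have hq0 : 0 ≤ q := by rw [hq]; positivity
  have hqC : q ≤ C2 := by
    rw [hq, div_le_iff₀ hQp]
    nlinarith [sq_nonneg Q]
  have hqK : q * K ≤ l / 16 := by
    rw [hq, div_mul_eq_mul_div, div_le_iff₀ hQp]
    have h1 : 16 * C2 * K / l ≤ 1 + Q ^ 2 := by
      have : 16 * C2 * K / l ≤ Q := by rw [hQ]; linarith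
      linarith
    rw [div_le_iff₀ hl] at h1
    nlinarith
  -- λ
  obtain ⟨lam, hlam⟩ : ∃ lam : ℝ, lam = l / (4 * K) := ⟨_, rfl⟩
  have hlam0 : 0 < lam := by rw [hlam]; positivity
  have hlamK : lam * K = l / 4 := by rw [hlam]; field_simp
  refine ⟨Q, R, lam * l / (4 * B), hQ1, hR1, by positivity, ?_⟩
  -- smallness of the r part
  have hev1 : ∀ᶠ T in atTop, EE v T (fun t => r T t ^ 2) ≤ (l / 16) ^ 2 / K :=
    hr0.eventually_le_const (by positivity)
  have hev2 : ∀ᶠ T in atTop, EE v T (X T) ≤ -l + l / 16 :=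
    hlim.eventually_le_const (by linarith)
  filter_upwards [hev1, hev2, hK1, hK2, hK3, hK4, hX.cont, hW.cont, hS.cont, hr.cont, eventually_gt_atTop (0 : ℝ)] with T
    e1 e2 e3 e4 e5 e6 cX cW cS cr hT
  have cra : Continuous (fun t => |r T t|) := cr.abs
  have cZ : Continuous (fun t => |X T t| + (C2 * S0 T t + |r T t|) * W T t) := by fun_prop
  -- bounds for the means
  have m1 : EE v T (fun t => S0 T t * W T t) ≤ K := by
    refine le_trans ?_ (e3.trans k1)
    refine EE_mono hv hT (by fun_prop) (by fun_prop) fun t _ => ?_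
    rw [pow_one]
    exact le_abs_self _
  have m2 : EE v T (fun t => |r T t| * W T t) ≤ l / 16 := by
    have h1 := EE_mul_sq_le hv hT cra cW
    have h2 : EE v T (fun t => |r T t| ^ 2) ≤ (l / 16) ^ 2 / K := by
      refine le_trans (le_of_eq ?_) e1
      congr 1
      ext t
      exact sq_abs _
    have h3 : EE v T (fun t => W T t ^ 2) ≤ K := by
      refine le_trans (le_of_eq ?_) (e4.trans k2)
      congr 1
      ext t
      exact (sq_abs _).symm
    have h4 : 0 ≤ EE v T (fun t => W T t ^ 2) := EE_nonneg' hv hT fun t => sq_nonneg _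
    have h5 : (EE v T (fun t => |r T t| * W T t)) ^ 2 ≤ (l / 16) ^ 2 := by
      calc _ ≤ EE v T (fun t => |r T t| ^ 2) * EE v T (fun t => W T t ^ 2) := h1
        _ ≤ ((l / 16) ^ 2 / K) * K := mul_le_mul h2 h3 h4 (by positivity)
        _ = (l / 16) ^ 2 := by field_simp
    exact le_of_sq_le_sq' h5 (by positivity)
  have m3 : EE v T (fun t => (|X T t| + (C2 * S0 T t + |r T t|) * W T t) ^ 2) ≤ K := by
    refine le_trans (le_of_eq ?_) (e5.trans k3)
    congr 1
    ext t
    exact (sq_abs _).symm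
  have m4 : EE v T (fun t => (|X T t| + (C2 * S0 T t + |r T t|) * W T t) * S0 T t) ≤ K := by
    refine le_trans ?_ (e6.trans k4)
    refine EE_mono hv hT (by fun_prop) (by fun_prop) fun t _ => ?_
    rw [pow_one]
    exact le_abs_self _
  have m5 : EE v T (fun t => (|X T t| + (C2 * S0 T t + |r T t|) * W T t) * |r T t|) ≤ l / 16 := by
    have h1 := EE_mul_sq_le hv hT cZ cra
    have h2 : EE v T (fun t => |r T t| ^ 2) ≤ (l / 16) ^ 2 / K := by
      refine le_trans (le_of_eq ?_) e1
      congr 1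
      ext t
      exact sq_abs _
    have h4 : 0 ≤ EE v T (fun t => |r T t| ^ 2) := EE_nonneg' hv hT fun t => sq_nonneg _
    have h5 : (EE v T (fun t => (|X T t| + (C2 * S0 T t + |r T t|) * W T t) * |r T t|)) ^ 2 ≤ (l / 16) ^ 2 := by
      calc _ ≤ EE v T (fun t => (|X T t| + (C2 * S0 T t + |r T t|) * W T t) ^ 2) * EE v T (fun t => |r T t| ^ 2) := h1
        _ ≤ K * ((l / 16) ^ 2 / K) := mul_le_mul m3 h2 h4 (by positivity)
        _ = (l / 16) ^ 2 := by field_simp
    exact le_of_sq_le_sq' h5 (by positivity)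
  -- the set
  set S : Set ℝ := {t | q * S0 T t + |r T t| ≤ 1 ∧ X T t + (q * S0 T t + |r T t|) * W T t < 0} with hSd
  have hSm : MeasurableSet S := by
    have g1 : Continuous (fun t => q * S0 T t + |r T t|) := by fun_prop
    have g2 : Continuous (fun t => X T t + (q * S0 T t + |r T t|) * W T t) := by fun_prop
    exact (measurableSet_le g1.measurable measurable_const).inter (measurableSet_lt g2.measurable measurable_const)
  -- the key function
  set f : ℝ → ℝ := fun t => (-(X T t) + (-(q * (S0 T t * W T t)) + -(|r T t| * W T t))) +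
    ((-(lam / 2)) * (|X T t| + (C2 * S0 T t + |r T t|) * W T t) ^ 2 +
      ((-q) * ((|X T t| + (C2 * S0 T t + |r T t|) * W T t) * S0 T t) +
        (-1) * ((|X T t| + (C2 * S0 T t + |r T t|) * W T t) * |r T t|))) with hf
  have cf1 : Continuous (fun t => -(X T t)) := cX.neg
  have cf : Continuous f := by rw [hf]; fun_prop
  have hZge : ∀ t, -(X T t) + (-(q * (S0 T t * W T t)) + -(|r T t| * W T t)) ≤
      |X T t| + (C2 * S0 T t + |r T t|) * W T t := by
    intro t
    have h1 := neg_abs_le (X T t)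
    have h2 := hW0 T t
    have h3 := hS0 T t
    have h4 := abs_nonneg (r T t)
    have h5 : 0 ≤ q * (S0 T t * W T t) := by positivity
    have h6 : 0 ≤ |r T t| * W T t := by positivity
    have h7 : 0 ≤ (C2 * S0 T t + |r T t|) * W T t := by positivity
    linarith
  have hZ0 : ∀ t, 0 ≤ |X T t| + (C2 * S0 T t + |r T t|) * W T t := by
    intro t
    have h2 := hW0 T t
    have h3 := hS0 T t
    positivity
  have hout : ∀ t, t ∉ S → f t ≤ 0 := by
    intro t ht
    rw [hf]
    simp only
    have h2 := hW0 T t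
    have h3 := hS0 T t
    have h4 := abs_nonneg (r T t)
    have hz := hZ0 t
    have hzg := hZge t
    have hsq := sq_nonneg (|X T t| + (C2 * S0 T t + |r T t|) * W T t)
    rw [hSd, mem_ofPred_eq, not_and_or, not_le, not_lt] at ht
    generalize |X T t| + (C2 * S0 T t + |r T t|) * W T t = z at *
    rcases ht with ht | ht
    · have : z * 1 ≤ z * (q * S0 T t + |r T t|) := mul_le_mul_of_nonneg_left ht.le hz
      nlinarith
    · have h5 : 0 ≤ q * (z * S0 T t) := by positivity
      have h6 : 0 ≤ z * |r T t| := by positivity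
      nlinarith
  have hin : ∀ t ∈ S, f t ≤ 1 / (2 * lam) := by
    intro t _
    rw [hf]
    simp only
    have h3 := hS0 T t
    have h4 := abs_nonneg (r T t)
    have hz := hZ0 t
    have hzg := hZge t
    generalize |X T t| + (C2 * S0 T t + |r T t|) * W T t = z at *
    have h5 : 0 ≤ q * (z * S0 T t) := by positivity
    have h6 : 0 ≤ z * |r T t| := by positivity
    have h7 : z ≤ lam / 2 * z ^ 2 + 1 / (2 * lam) := by
      have h8 : 0 ≤ (lam * z - 1) ^ 2 / (2 * lam) := by positivity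
      have h9 : (lam * z - 1) ^ 2 / (2 * lam) = lam / 2 * z ^ 2 - z + 1 / (2 * lam) := by
        field_simp
        ring
      rw [h9] at h8
      linarith
    linarith
  have hkey := hmeas T hT f cf S hSm (1 / (2 * lam)) (by positivity) hout hin
  -- mean of f
  have hmean : l / 4 ≤ EE v T f := by
    have c1 : Continuous (fun t => -(q * (S0 T t * W T t))) := by fun_prop
    have c2 : Continuous (fun t => -(|r T t| * W T t)) := by fun_prop
    have c12 : Continuous (fun t => -(q * (S0 T t * W T t)) + -(|r T t| * W T t)) := by fun_prop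
    have c3 : Continuous (fun t => (-(lam / 2)) * (|X T t| + (C2 * S0 T t + |r T t|) * W T t) ^ 2) := by fun_prop
    have c4 : Continuous (fun t => (-q) * ((|X T t| + (C2 * S0 T t + |r T t|) * W T t) * S0 T t)) := by fun_prop
    have c5 : Continuous (fun t => (-1) * ((|X T t| + (C2 * S0 T t + |r T t|) * W T t) * |r T t|)) := by fun_prop
    have c45 : Continuous (fun t => (-q) * ((|X T t| + (C2 * S0 T t + |r T t|) * W T t) * S0 T t) +
        (-1) * ((|X T t| + (C2 * S0 T t + |r T t|) * W T t) * |r T t|)) := by fun_prop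
    have c345 : Continuous (fun t => (-(lam / 2)) * (|X T t| + (C2 * S0 T t + |r T t|) * W T t) ^ 2 +
      ((-q) * ((|X T t| + (C2 * S0 T t + |r T t|) * W T t) * S0 T t) +
        (-1) * ((|X T t| + (C2 * S0 T t + |r T t|) * W T t) * |r T t|))) := by fun_prop
    have c012 : Continuous (fun t => -(X T t) + (-(q * (S0 T t * W T t)) + -(|r T t| * W T t))) := by fun_prop
    rw [hf, EE_add hv hT c012 c345, EE_add hv hT cf1 c12, EE_add hv hT c1 c2,
      EE_add hv hT c3 c45, EE_add hv hT c4 c5, EE_const_mul, EE_const_mul, EE_const_mul]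
    have n1 : EE v T (fun t => -(X T t)) = -(EE v T (X T)) := by
      have := EE_const_mul v T (-1) (X T)
      simp only [neg_mul, one_mul] at this
      exact this
    have n2 : EE v T (fun t => -(q * (S0 T t * W T t))) = -(q * EE v T (fun t => S0 T t * W T t)) := by
      have := EE_const_mul v T (-q) (fun t => S0 T t * W T t)
      simp only [neg_mul] at this
      exact this
    have n3 : EE v T (fun t => -(|r T t| * W T t)) = -(EE v T (fun t => |r T t| * W T t)) := by
      have := EE_const_mul v T (-1) (fun t => |r T t| * W T t)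
      simp only [neg_mul, one_mul] at this
      exact this
    rw [n1, n2, n3]
    have p1 : q * EE v T (fun t => S0 T t * W T t) ≤ q * K := mul_le_mul_of_nonneg_left m1 hq0
    have p2 : q * EE v T (fun t => (|X T t| + (C2 * S0 T t + |r T t|) * W T t) * S0 T t) ≤ q * K :=
      mul_le_mul_of_nonneg_left m4 hq0
    have p3 : lam / 2 * EE v T (fun t => (|X T t| + (C2 * S0 T t + |r T t|) * W T t) ^ 2) ≤ lam / 2 * K :=
      mul_le_mul_of_nonneg_left m3 (by positivity)
    linarith
  refine ⟨S ∩ Icc (T / R) (R * T), hSm.inter measurableSet_Icc, inter_subset_right, ?_, ?_⟩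
  · have h1 : l / 4 ≤ 1 / (2 * lam) * B / T * volume.real (S ∩ Icc (T / R) (R * T)) := hmean.trans hkey
    have h2 : 1 / (2 * lam) * B / T * volume.real (S ∩ Icc (T / R) (R * T)) =
        volume.real (S ∩ Icc (T / R) (R * T)) * B / (2 * lam * T) := by
      field_simp
    rw [h2, le_div_iff₀ (by positivity)] at h1
    have h3 : 0 ≤ volume.real (S ∩ Icc (T / R) (R * T)) := measureReal_nonneg
    rw [div_mul_eq_mul_div, div_le_iff₀ (by positivity)]
    nlinarith [mul_nonneg (mul_nonneg hlam0.le hl.le) hT.le]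
  · intro t ht
    rw [← hq]
    exact ht.1
where
  le_of_sq_le_sq' {a b : ℝ} (h : a ^ 2 ≤ b ^ 2) (hb : 0 ≤ b) : a ≤ b := by
    nlinarith [abs_le_of_sq_le_sq h hb, le_abs_self a]

end Pool.Agent.H67.HF
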