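import Mathlib
import Pool.Agent.H67.HF.Defs2
import Pool.Agent.H98.GP.D
import Pool.Agent.H6.Final

/-!
# MP_103a5c_HF (HalfGaps): the STATEMENTS of the blocks (this file is only a specification; the real theorems are
proved in the blocks and this file is not imported by the final theorem).
-/

open MeasureTheory Set Filter Topology
open scoped Real ContDiff ComplexConjugate

namespace Pool.Agent.H67.HF.St

open Pool.Agent Pool.Agent.H6 Pool.Agent.H14.GP Pool.Agent.H98.GP Pool.Agent.H24.HF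

/-! ### Block 1 (helper98): deterministic part -/

theorem strip : ∃ C0 : ℝ, 0 < C0 ∧ ∀ n : ℕ, Even n → 0 < n → ∃ C1 : ℝ, 0 ≤ C1 ∧ ∀ (ε : ℝ) (z : ℂ),
    0 ≤ ε → ε ≤ 1 → -ε ≤ z.re → z.re ≤ 1 + ε → -(C0 / n) - C1 * ε * (1 + ‖z‖) ^ n ≤ (Vn n z).re := sorry

section
variable {ι : Type*} [Countable ι] {γ w : ι → ℝ} {F : ℝ → Finset ι} {CR : ℝ}

theorem psi_facts {χ : ℝ → ℝ} {D δ : ℝ} (hW : Win2 χ D) (hδ : 0 < δ) :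
    Continuous (psi χ δ) ∧ (∀ x, psi χ δ (-x) = psi χ δ x) ∧ (∀ x, 0 ≤ psi χ δ x) ∧
      ∃ C, 0 ≤ C ∧ ∀ x, psi χ δ x ≤ C / (1 + x ^ 2) ^ 3 := sorry

theorem count_good (I : Inputs γ w F CR) {χ : ℝ → ℝ} {D δ : ℝ} (hW : Win2 χ D) (hδ : 0 < δ) :
    ∃ C : ℝ, 0 ≤ C ∧ ∀ Q : ℝ, 1 ≤ Q → ∀ L : ℝ, 2 * π ≤ L → ∀ t : ℝ, Sep γ w δ Q L t →
      0 ≤ SS γ w (psi χ δ) L t ∧ SS γ w (psi χ δ) L t ≤ 1 + C / (1 + Q ^ 2) * SS γ w ph0 L t := sorry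

/-! ### Block 2 (helper26 + helper5 + helper98): explicit formula and moments -/

theorem explicit_P (I : Inputs γ w F CR) {χ : ℝ → ℝ} {D δ : ℝ} (hW : Win2 χ D) (hδ : 0 < δ) {v : ℝ → ℝ} (hv : Wgt v) :
    Tendsto (fun T => EE v T (fun t => (SS γ w (psi χ δ) (Real.log T) t - (δ - 2 * (PP1 χ δ D T t).re)) ^ 2))
      atTop (𝓝 0) := sorry

theorem mom_P (I : Inputs γ w F CR) {χ : ℝ → ℝ} {D δ : ℝ} (hW : Win2 χ D) (hδ : 0 < δ) :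
    Mom (fun T t => ‖PP1 χ δ D T t‖) := sorry

theorem mom_h (I : Inputs γ w F CR) {M : ℕ} {θ : ℝ} {Gc : ℕ → ℝ → ℝ} (hG : Cells1 M θ Gc) (k : ℕ) :
    Mom (fun T t => ‖hh Gc T t k‖) := sorry

end

/-! ### Block 3 (helper24 + helper14 + helper68): mean values -/

theorem mean_P {v : ℝ → ℝ} (hv : Wgt v) {M : ℕ} {θ : ℝ} {Gc : ℕ → ℝ → ℝ} (hG : Cells1 M θ Gc)
    {χ : ℝ → ℝ} {D δ : ℝ} (hW : Win2 χ D) (hδ : 0 < δ) (j k m : ℕ) (hk : k < M) (hm : m < M) :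
    Tendsto (fun T => EC v T (fun t => PP1 χ δ D T t ^ j * (hh Gc T t k * conj (hh Gc T t m)))) atTop
      (𝓝 (((∫ x, v x) * LamP (kaps (Gd χ δ) Gc) j k m : ℝ) : ℂ)) := sorry

theorem mean_V {v : ℝ → ℝ} (hv : Wgt v) {M : ℕ} {θ : ℝ} {Gc : ℕ → ℝ → ℝ} (hG : Cells1 M θ Gc)
    {χ : ℝ → ℝ} {D δ : ℝ} (hW : Win2 χ D) (hδ : 0 < δ) (n : ℕ) (β : ℝ) :
    Tendsto (fun T => EC v T (fun t => Vn n (δ - 2 * PP1 χ δ D T t) * (CC β M Gc T t * conj (CC β M Gc T t)))) atTop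
      (𝓝 (((∫ x, v x : ℝ) : ℂ) * Jn n M δ β (kaps (Gd χ δ) Gc))) := sorry

theorem mean_C {v : ℝ → ℝ} (hv : Wgt v) {M : ℕ} {θ : ℝ} {Gc : ℕ → ℝ → ℝ} (hG : Cells1 M θ Gc) (β : ℝ) :
    Tendsto (fun T => EE v T (fun t => ‖CC β M Gc T t‖ ^ 2)) atTop (𝓝 ((∫ x, v x) * M)) := sorry

/-! ### Block 4 (helper87): the limit functional is negative -/

theorem functional_half {δ : ℝ} (h1 : 1 / 2 < δ) (h2 : δ < 1) (C0 : ℝ) (hC : 0 < C0) :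
    ∃ (χ : ℝ → ℝ) (D : ℝ) (M : ℕ) (θ : ℝ) (Gc : ℕ → ℝ → ℝ) (n : ℕ), Win2 χ D ∧ Cells1 M θ Gc ∧ Even n ∧ 0 < n ∧
      (Jn n M δ (π * δ * θ / M) (kaps (Gd χ δ) Gc)).re + C0 / n * M < 0 := sorry

/-! ### Block 5 (helper69 + helper67): assembly -/

/-- the certificate argument: a positive proportion of `t` is not separated -/
theorem bad_measure (RH : RiemannHypothesis) {δ : ℝ} (h1 : 1 / 2 < δ) (h2 : δ < 1) :
    ∃ Q R c : ℝ, 1 ≤ Q ∧ 1 ≤ R ∧ 0 < c ∧ ∀ᶠ T in atTop, ∃ S : Set ℝ, MeasurableSet S ∧ S ⊆ Icc (T / R) (R * T) ∧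
      c * T ≤ volume.real S ∧ ∀ t ∈ S, ¬ Sep gZ wZ δ Q (Real.log T) t := sorry

theorem half_gaps (RH : RiemannHypothesis) {b : ℝ} (hb : 1 / 2 < b) :
    ∃ c : ℝ, 0 < c ∧ ∀ᶠ T in atTop, (1 + c) * PC.norm T ≤ PC.pairCount T 0 b := sorry

end Pool.Agent.H67.HF.St
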