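import Mathlib
import Pool.Agent.H67.HF.Cert
import Pool.Agent.H67.HF.St

/-!
# MP_103a5c_HF: a positive proportion of `t` has two close zeros nearby
-/

open MeasureTheory Set Filter Topology
open scoped Real ContDiff ComplexConjugate

namespace Pool.Agent.H67.HF

open Pool.Agent Pool.Agent.H6 Pool.Agent.H14.GP Pool.Agent.H98.GP Pool.Agent.H26.GH Pool.Agent.H24.HF

theorem Bad_wgt : ∃ v : ℝ → ℝ, Wgt v ∧ 0 < ∫ x, v x := by
  let b : ContDiffBump (2 : ℝ) := ⟨1 / 2, 1, by norm_num, by norm_num⟩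
  refine ⟨b, ⟨b.contDiff, ⟨1, 3, by norm_num, by norm_num, fun x hx => ?_⟩, fun x => b.nonneg⟩, b.integral_pos⟩
  apply b.zero_of_le_dist
  rw [Real.dist_eq]
  show (1 : ℝ) ≤ |x - 2|
  by_contra h
  rw [not_le, abs_lt] at h
  exact hx ⟨by linarith, by linarith⟩

theorem Bad_ph0 : Continuous ph0 ∧ (∀ u, 0 ≤ ph0 u) ∧ ∀ u, |ph0 u| ≤ 1 / (1 + u ^ 2) ^ 2 := by
  refine ⟨Mg_ph0_cont, fun u => by unfold ph0; positivity, fun u => ?_⟩
  unfold ph0
  rw [abs_of_nonneg (by positivity)]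

/-- a norm of a continuous function dominated by a `Mom` function -/
theorem Bad_of_le {F G : ℝ → ℝ → ℝ} (hF : ∀ᶠ T in atTop, Continuous (F T)) (hG : Mom G)
    (h : ∀ᶠ T in atTop, ∀ t, |F T t| ≤ G T t) : Mom F := by
  refine Mom.of_le hF hG fun c C _ _ => ⟨1, ?_⟩
  filter_upwards [h] with T hT t _
  have := le_abs_self (G T t)
  have := hT t
  linarith

theorem bad_measure (RH : RiemannHypothesis) {δ : ℝ} (h1 : 1 / 2 < δ) (h2 : δ < 1) :
    ∃ Q R c : ℝ, 1 ≤ Q ∧ 1 ≤ R ∧ 0 < c ∧ ∀ᶠ T in atTop, ∃ S : Set ℝ, MeasurableSet S ∧ S ⊆ Icc (T / R) (R * T) ∧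
      c * T ≤ volume.real S ∧ ∀ t ∈ S, ¬ Sep gZ wZ δ Q (Real.log T) t := by
  have hδ : 0 < δ := by linarith
  obtain ⟨CR, I⟩ := exists_inputs RH
  obtain ⟨C0, hC0, hstrip⟩ := St.strip
  obtain ⟨χ, D, M, θ, Gc, n, hW, hG, hn, hn0, hJ⟩ := St.functional_half h1 h2 C0 hC0
  obtain ⟨C1, hC1, hst⟩ := hstrip n hn hn0
  obtain ⟨hψc, hψe, hψ0, Cψ, hCψ, hψd⟩ := St.psi_facts hW hδ
  obtain ⟨C2, hC2, hcount⟩ := St.count_good I hW hδ
  obtain ⟨v, hv, hvpos⟩ := Bad_wgt
  set β : ℝ := π * δ * θ / M with hβ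
  -- moments
  have mP := St.mom_P I hW hδ
  have mh := fun k => St.mom_h I hG k
  have hDp : 0 < D := lt_of_lt_of_le one_pos hW.D_pos
  have hcP : ∀ᶠ T : ℝ in atTop, Continuous (fun t => PP1 χ δ D T t) := by
    filter_upwards [eventually_gt_atTop (0 : ℝ)] with T hT
    exact Mk_continuous_ev _ (Real.rpow_pos_of_pos hT D)
  have hch : ∀ k, ∀ᶠ T : ℝ in atTop, Continuous (fun t => hh Gc T t k) := by
    intro k
    filter_upwards [eventually_gt_atTop (0 : ℝ)] with T hT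
    unfold hh
    induction k using Nat.strong_induction_on with
    | _ k ih =>
      rcases k with _ | k
      · simp only [cf]
        exact continuous_const
      · simp only [cf]
        have hj : ∀ j : Fin (k + 1), Continuous (fun t => (((j : ℕ) : ℝ) + 1) • (ev t (bb (Gc ((j : ℕ) + 1)) T) *
            cf (-1) (fun j => ev t (bb (Gc j) T)) (k - j))) := fun j =>
          ((Mk_continuous_ev _ hT).mul (ih _ (by omega))).const_smul (((j : ℕ) : ℝ) + 1)
        exact (continuous_finsetSum _ fun j _ => hj j).const_smul ((-1 : ℝ) / ((k : ℝ) + 1))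
  have hcC : ∀ᶠ T : ℝ in atTop, Continuous (fun t => CC β M Gc T t) := by
    have h3 : ∀ᶠ T : ℝ in atTop, ∀ k ∈ Finset.range M, Continuous (fun t => hh Gc T t k) :=
      (Finset.range M).eventually_all.2 fun k _ => hch k
    filter_upwards [h3] with T hT
    unfold CC
    exact continuous_finsetSum _ fun k hk => continuous_const.mul (hT k hk)
  have mC : Mom (fun T t => ‖CC β M Gc T t‖) := by
    refine Bad_of_le ?_ (Mom.sum (Finset.range M) fun k _ => mh k) (Eventually.of_forall fun T t => ?_)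
    · filter_upwards [hcC] with T hT
      exact hT.norm
    · rw [abs_of_nonneg (norm_nonneg _)]
      refine (norm_sum_le _ _).trans (Finset.sum_le_sum fun k _ => ?_)
      rw [norm_mul]
      have : ‖Complex.exp (-((β * k : ℝ) : ℂ) * Complex.I)‖ = 1 := by
        rw [← Complex.ofReal_neg, Complex.norm_exp_ofReal_mul_I]
      rw [this, one_mul]
  have mA : Mom (fun T t => ‖CC β M Gc T t‖ ^ 2) := mC.pow 2
  have mz : Mom (fun T t => 1 + ‖(δ : ℂ) - 2 * PP1 χ δ D T t‖) := by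
    refine Bad_of_le ?_ ((Mom.const (1 + δ)).add (mP.const_mul 2)) (Eventually.of_forall fun T t => ?_)
    · filter_upwards [hcP] with T hT
      fun_prop
    · rw [abs_of_nonneg (by positivity)]
      have h3 := norm_sub_le (δ : ℂ) (2 * PP1 χ δ D T t)
      rw [norm_mul, Complex.norm_real, Real.norm_eq_abs, abs_of_pos hδ, Complex.norm_two] at h3
      linarith
  have mW : Mom (fun T t => C1 * ((1 + ‖(δ : ℂ) - 2 * PP1 χ δ D T t‖) ^ n * ‖CC β M Gc T t‖ ^ 2)) :=
    ((mz.pow n).mul mA).const_mul C1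
  -- Vn is bounded by a power
  have hVn : ∀ z : ℂ, ‖Vn n z‖ ≤ 4 ^ n * (1 + ‖z‖) ^ n := by
    intro z
    unfold Vn
    rw [norm_pow, ← mul_pow]
    refine pow_le_pow_left₀ (norm_nonneg _) ?_ n
    have hn1 : (1 : ℝ) ≤ n := by exact_mod_cast hn0
    have h3 : ‖(π : ℂ) * Complex.I * (z - 1 / 2) / (n : ℂ)‖ ≤ π * (‖z‖ + 1 / 2) := by
      rw [norm_div, norm_mul, norm_mul, Complex.norm_I, mul_one, Complex.norm_real, Real.norm_eq_abs,
        abs_of_pos Real.pi_pos, Complex.norm_natCast]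
      have h4 : ‖z - 1 / 2‖ ≤ ‖z‖ + 1 / 2 := by
        refine (norm_sub_le _ _).trans ?_
        norm_num
      have h5 : 0 ≤ π * ‖z - 1 / 2‖ := by positivity
      calc π * ‖z - 1 / 2‖ / n ≤ π * ‖z - 1 / 2‖ := div_le_self h5 hn1
        _ ≤ _ := mul_le_mul_of_nonneg_left h4 Real.pi_pos.le
    have h6 := norm_add_le (1 : ℂ) ((π : ℂ) * Complex.I * (z - 1 / 2) / (n : ℂ))
    rw [norm_one] at h6
    have h7 := Real.pi_lt_four
    have h8 := norm_nonneg z
    nlinarith [Real.pi_pos]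
  have mX : Mom (fun T t => (Vn n ((δ : ℂ) - 2 * PP1 χ δ D T t)).re * ‖CC β M Gc T t‖ ^ 2 +
      C0 / n * ‖CC β M Gc T t‖ ^ 2) := by
    refine Mom.add ?_ (mA.const_mul (C0 / n))
    refine Mom.mul ?_ mA
    refine Bad_of_le ?_ ((mz.pow n).const_mul (4 ^ n)) (Eventually.of_forall fun T t => ?_)
    · filter_upwards [hcP] with T hT
      unfold Vn
      fun_prop
    · exact (Complex.abs_re_le_norm _).trans (hVn _)
  have mS : Mom (fun T t => SS gZ wZ ph0 (Real.log T) t) := mom_SS I Bad_ph0.1 zero_le_one Bad_ph0.2.2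
  have hψd2 : ∀ u, |psi χ δ u| ≤ Cψ / (1 + u ^ 2) ^ 2 := by
    intro u
    rw [abs_of_nonneg (hψ0 u)]
    refine (hψd u).trans (div_le_div_of_nonneg_left hCψ (by positivity) ?_)
    exact pow_le_pow_right₀ (by nlinarith [sq_nonneg u]) (by norm_num)
  have mψ : Mom (fun T t => SS gZ wZ (psi χ δ) (Real.log T) t) := mom_SS I hψc hCψ hψd2
  have mr : Mom (fun T t => SS gZ wZ (psi χ δ) (Real.log T) t - (δ - 2 * (PP1 χ δ D T t).re)) := by
    have m1 : Mom (fun T t => δ - 2 * (PP1 χ δ D T t).re) := by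
      refine Bad_of_le ?_ ((Mom.const δ).add (mP.const_mul 2)) (Eventually.of_forall fun T t => ?_)
      · filter_upwards [hcP] with T hT
        have : Continuous (fun t => (PP1 χ δ D T t).re) := Complex.continuous_re.comp hT
        fun_prop
      · have h3 := Complex.abs_re_le_norm (PP1 χ δ D T t)
        have h4 := abs_sub δ (2 * (PP1 χ δ D T t).re)
        rw [abs_of_pos hδ, abs_mul, abs_two] at h4
        linarith
    have m2 := mψ.add (m1.const_mul (-1))
    have e : (fun T t => SS gZ wZ (psi χ δ) (Real.log T) t - (δ - 2 * (PP1 χ δ D T t).re)) =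
        fun T t => SS gZ wZ (psi χ δ) (Real.log T) t + (-1) * (δ - 2 * (PP1 χ δ D T t).re) := by
      funext T t
      ring
    rw [e]
    exact m2
  -- the limit of the mean
  have hlim : Tendsto (fun T => EE v T (fun t => (Vn n ((δ : ℂ) - 2 * PP1 χ δ D T t)).re * ‖CC β M Gc T t‖ ^ 2 +
      C0 / n * ‖CC β M Gc T t‖ ^ 2)) atTop
      (𝓝 (-((∫ x, v x) * (-((Jn n M δ β (kaps (Gd χ δ) Gc)).re + C0 / n * M))))) := by
    have l1 := St.mean_V hv hG hW hδ n β
    have l2 := (St.mean_C hv hG β).const_mul (C0 / n)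
    have l3 := (Complex.continuous_re.tendsto _).comp l1
    have l4 := l3.add l2
    have e1 : (((∫ x, v x : ℝ) : ℂ) * Jn n M δ β (kaps (Gd χ δ) Gc)).re + C0 / n * ((∫ x, v x) * M) =
        -((∫ x, v x) * (-((Jn n M δ β (kaps (Gd χ δ) Gc)).re + C0 / n * M))) := by
      rw [Complex.re_ofReal_mul]
      ring
    rw [e1] at l4
    refine l4.congr' ?_
    filter_upwards [hcP, hcC, eventually_gt_atTop (0 : ℝ)] with T cP cC hT
    have cV : Continuous (fun t => Vn n ((δ : ℂ) - 2 * PP1 χ δ D T t)) := by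
      unfold Vn
      fun_prop
    have c1 : Continuous (fun t => (Vn n ((δ : ℂ) - 2 * PP1 χ δ D T t)).re * ‖CC β M Gc T t‖ ^ 2) := by
      have : Continuous (fun t => (Vn n ((δ : ℂ) - 2 * PP1 χ δ D T t)).re) := Complex.continuous_re.comp cV
      fun_prop
    have c2 : Continuous (fun t => C0 / n * ‖CC β M Gc T t‖ ^ 2) := by fun_prop
    rw [EE_add hv hT c1 c2, EE_const_mul]
    congr 1
    show (EC v T _).re = _
    unfold EC EE
    rw [Complex.re_ofReal_mul]
    congr 1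
    have hint : Integrable (fun t => (v (t / T) : ℂ) *
        (Vn n ((δ : ℂ) - 2 * PP1 χ δ D T t) * (CC β M Gc T t * conj (CC β M Gc T t)))) := by
      have hc : Continuous (fun t => (v (t / T) : ℂ) *
        (Vn n ((δ : ℂ) - 2 * PP1 χ δ D T t) * (CC β M Gc T t * conj (CC β M Gc T t)))) := by
        have hvc : Continuous v := hv.smooth.continuous
        have : Continuous (fun t => conj (CC β M Gc T t)) := Complex.continuous_conj.comp cC
        fun_prop
      refine hc.integrable_of_hasCompactSupport ?_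
      refine HasCompactSupport.mul_right ?_
      exact (wscs hv hT).comp_left (g := fun x : ℝ => (x : ℂ)) Complex.ofReal_zero
    have := Complex.reCLM.integral_comp_comm hint
    simp only [Complex.reCLM_apply] at this
    rw [← this]
    refine integral_congr_ae (ae_of_all _ fun t => ?_)
    show ((v (t / T) : ℂ) * (Vn n ((δ : ℂ) - 2 * PP1 χ δ D T t) * (CC β M Gc T t * conj (CC β M Gc T t)))).re =
      v (t / T) * ((Vn n ((δ : ℂ) - 2 * PP1 χ δ D T t)).re * ‖CC β M Gc T t‖ ^ 2)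
    rw [Complex.re_ofReal_mul, Complex.mul_conj, Complex.re_mul_ofReal, Complex.normSq_eq_norm_sq]
  have hl : 0 < (∫ x, v x) * (-((Jn n M δ β (kaps (Gd χ δ) Gc)).re + C0 / n * M)) :=
    mul_pos hvpos (by linarith)
  have hS0 : ∀ T t : ℝ, 0 ≤ SS gZ wZ ph0 (Real.log T) t := fun T t =>
    tsum_nonneg fun i => mul_nonneg (I.ord.w_nonneg i) (Bad_ph0.2.1 _)
  obtain ⟨Q, R, c, hQ, hR, hc, hev⟩ := cert hv mX mW mS mr (fun T t => by positivity) hS0 hl hlim
    (St.explicit_P I hW hδ hv) hC2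
  refine ⟨Q, R, c, hQ, hR, hc, ?_⟩
  have hlog : ∀ᶠ T : ℝ in atTop, 2 * π ≤ Real.log T := Real.tendsto_log_atTop.eventually_ge_atTop _
  filter_upwards [hev, hlog] with T hT hL
  obtain ⟨S, hSm, hSs, hSv, hS⟩ := hT
  refine ⟨S, hSm, hSs, hSv, fun t ht hsep => ?_⟩
  obtain ⟨ha, hb⟩ := hS t ht
  obtain ⟨hc1, hc2⟩ := hcount Q hQ (Real.log T) hL t hsep
  set ε : ℝ := C2 / (1 + Q ^ 2) * SS gZ wZ ph0 (Real.log T) t +
    |SS gZ wZ (psi χ δ) (Real.log T) t - (δ - 2 * (PP1 χ δ D T t).re)| with hε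
  have hq : 0 ≤ C2 / (1 + Q ^ 2) * SS gZ wZ ph0 (Real.log T) t := mul_nonneg (by positivity) (hS0 T t)
  have hε0 : 0 ≤ ε := by rw [hε]; positivity
  have hre : ((δ : ℂ) - 2 * PP1 χ δ D T t).re = δ - 2 * (PP1 χ δ D T t).re := by
    rw [Complex.sub_re, Complex.ofReal_re]
    simp
  have hab := abs_le.1 (le_refl |SS gZ wZ (psi χ δ) (Real.log T) t - (δ - 2 * (PP1 χ δ D T t).re)|)
  have h3 := hst ε ((δ : ℂ) - 2 * PP1 χ δ D T t) hε0 ha (by rw [hre]; linarith) (by rw [hre]; linarith)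
  have hA : 0 ≤ ‖CC β M Gc T t‖ ^ 2 := by positivity
  have h4 := mul_le_mul_of_nonneg_right h3 hA
  nlinarith

end Pool.Agent.H67.HF
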