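import Mathlib
import Pool.Agent.H14.GP.Defs

/-!
# MP_103a5c_HF: definitions

Under RH a positive proportion of the normalised gaps between zeros of zeta is at most `b`, for EVERY `b > 1/2`.
See /team-store/H67_half.md.  All objects of `Pool.Agent.H14.GP.Defs` (`chi`, `ev`, `bb`, `Wgt`, `EE`, `EC`, `cf`) are used.

`R` = circumference (the points `x = L (t - γ) / (2 π)` are taken modulo `R`), `a = 2 π δ / R`.
-/

open MeasureTheory Set Filter Topology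
open scoped Real ContDiff ComplexConjugate

namespace Pool.Agent.H67.HF

open Pool.Agent.H6 Pool.Agent.H14.GP

/-! ### finite algebra -/

/-- `ρ_l / l` with `ρ_l = 1 - e^{i a l}` (`0` for `l = 0`). -/
noncomputable def rr (a : ℝ) (l : ℕ) : ℂ := (1 - Complex.exp (((a * l : ℝ) : ℂ) * Complex.I)) / (l : ℂ)

/-- coefficients `r_n` of `exp (∑_{l ≥ 1} (1 - e^{i a l}) p_l y^l / l)` -/
noncomputable def rc (a : ℝ) (p : ℕ → ℂ) (n : ℕ) : ℂ := cf 1 (fun l => rr a l * p l) n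

/-- `A_k = e^{i a k} h_k` for `k ≤ K` -/
noncomputable def Ak (a : ℝ) (K : ℕ) (h : ℕ → ℂ) (k : ℕ) : ℂ :=
  if k ≤ K then Complex.exp (((a * k : ℝ) : ℂ) * Complex.I) * h k else 0

/-- `B_k = ∑_{i < U} A_{k - i}` -/
noncomputable def Bk (a : ℝ) (K U : ℕ) (h : ℕ → ℂ) (k : ℕ) : ℂ :=
  ∑ i ∈ Finset.range U, if i ≤ k then Ak a K h (k - i) else 0

/-- the Toeplitz form `∑_{k ≤ m ≤ D} r_{m-k} B_k conj B_m` for an arbitrary sequence `B` -/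
noncomputable def TF (D : ℕ) (r B : ℕ → ℂ) : ℂ :=
  ∑ k ∈ Finset.range (D + 1), ∑ m ∈ Finset.range (D + 1),
    if k ≤ m then r (m - k) * B k * conj (B m) else 0

/-- the certificate form `F` -/
noncomputable def FF (a : ℝ) (K U : ℕ) (p h : ℕ → ℂ) : ℂ := TF (K + U) (rc a p) (Bk a K U h)

/-- `∑_{k ≤ K} |h_k|^2` -/
noncomputable def Sh (K : ℕ) (h : ℕ → ℂ) : ℝ := ∑ k ∈ Finset.range (K + 1), ‖h k‖ ^ 2

/-! ### window and cell functions -/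

/-- The window `χ` (Fourier side) and the cell profile `g₀`. -/
structure Win (χ g₀ : ℝ → ℝ) (r : ℝ) : Prop where
  r_pos : 0 < r
  r_lt : r < 1
  smooth : ContDiff ℝ ∞ χ
  even : ∀ u, χ (-u) = χ u
  supp : ∀ u, r ≤ |u| → χ u = 0
  zero : χ 0 = 1
  nonneg : ∀ u, 0 ≤ χ u
  le_one : ∀ u, χ u ≤ 1
  pos : ∀ x, 0 ≤ cosT χ x
  gsmooth : ContDiff ℝ ∞ g₀
  gnonneg : ∀ u, 0 ≤ g₀ u
  gsupp : ∀ u, u ≤ (1 - r) / 2 ∨ (1 + r) / 2 ≤ u → g₀ u = 0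
  gnorm : ∫ u, g₀ u ^ 2 = 1

/-- `H_l(x) = (1-η) x R χ(R x - l)`: the prime side of `p_l` -/
noncomputable def Hl (χ : ℝ → ℝ) (η : ℝ) (R l : ℕ) (x : ℝ) : ℝ := (1 - η) * (x * (R * χ (R * x - l)))

/-- the cell functions `G_j(x) = √(R x / j) g₀(R x - j + 1)`, `2 ≤ j ≤ K` -/
noncomputable def Gj (g₀ : ℝ → ℝ) (R K j : ℕ) (x : ℝ) : ℝ :=
  if 2 ≤ j ∧ j ≤ K then Real.sqrt (R * x / j) * g₀ (R * x - j + 1) else 0

/-- variances of the cells `2 ≤ j ≤ K` -/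
noncomputable def sj (K j : ℕ) : ℝ := if 2 ≤ j ∧ j ≤ K then 1 / (j : ℝ) else 0

/-- `b_k = E |h_k|^2`, the coefficients of `exp (∑_{2 ≤ j ≤ K} x^j / j)` -/
noncomputable def bk (K k : ℕ) : ℝ := cf 1 (sj K) k

/-- contraction constants `⟨H_l, G_j⟩` -/
noncomputable def kap (χ g₀ : ℝ → ℝ) (η : ℝ) (R K l j : ℕ) : ℝ :=
  ∫ x in Ioi (0 : ℝ), Hl χ η R l x * Gj g₀ R K j x / x

/-- The power series `E_n(w)`, coefficient of `y^n` in `exp (∑_l (ρ_l/l) y^l ∑_j κ_{l j} w^j)`. -/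
noncomputable def Ew (a : ℝ) (κ : ℕ → ℕ → ℝ) (n : ℕ) : PowerSeries ℂ :=
  cf 1 (fun l => PowerSeries.mk fun j => rr a l * (κ l j : ℂ)) n

/-- the limit of the mean value of `r_n h_k conj h_m` -/
noncomputable def Lam (a : ℝ) (κ : ℕ → ℕ → ℝ) (b : ℕ → ℝ) (n k m : ℕ) : ℂ :=
  if k ≤ m then (b k : ℂ) * PowerSeries.coeff (m - k) (Ew a κ n) else 0

/-- the limit of the mean value of `F` -/
noncomputable def JJ (a : ℝ) (K U : ℕ) (κ : ℕ → ℕ → ℝ) (b : ℕ → ℝ) : ℂ :=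
  ∑ k ∈ Finset.range (K + U + 1), ∑ m ∈ Finset.range (K + U + 1), if k ≤ m then
    ∑ i ∈ Finset.range U, ∑ i' ∈ Finset.range U,
      if i ≤ k ∧ k - i ≤ K ∧ i' ≤ m ∧ m - i' ≤ K then
        Complex.exp (((a * ((k - i : ℕ) : ℝ) - a * ((m - i' : ℕ) : ℝ) : ℝ) : ℂ) * Complex.I) *
          Lam a κ b (m - k) (k - i) (m - i') else 0
    else 0

/-! ### statistics of the zeros -/

/-- the points `x_i = L (t - γ_i) / (2 π)` -/
noncomputable def xx {ι : Type*} (γ : ι → ℝ) (L t : ℝ) (i : ι) : ℝ := L * (t - γ i) / (2 * π)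

/-- the weights `(1-η) w_i k(x_i)`, `k(x) = cosT χ (x / R)` -/
noncomputable def kw {ι : Type*} (γ w : ι → ℝ) (χ : ℝ → ℝ) (η : ℝ) (R : ℕ) (L t : ℝ) (i : ι) : ℝ :=
  (1 - η) * (w i * cosT χ (xx γ L t i / R))

/-- `p_l = ∑_i κ_i e(- l x_i / R)` -/
noncomputable def pz {ι : Type*} (γ w : ι → ℝ) (χ : ℝ → ℝ) (η : ℝ) (R : ℕ) (L t : ℝ) (l : ℕ) : ℂ :=
  ∑' i, (kw γ w χ η R L t i : ℂ) * Complex.exp (((l * (-(2 * π * xx γ L t i / R)) : ℝ) : ℂ) * Complex.I)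

/-- the total mass `N` -/
noncomputable def Nz {ι : Type*} (γ w : ι → ℝ) (χ : ℝ → ℝ) (η : ℝ) (R : ℕ) (L t : ℝ) : ℝ :=
  ∑' i, kw γ w χ η R L t i

/-- `q_l = - B_{H_l}`, the prime side of `p_l` -/
noncomputable def qz (χ : ℝ → ℝ) (η : ℝ) (R : ℕ) (T t : ℝ) (l : ℕ) : ℂ := -ev t (bb (Hl χ η R l) T)

/-- `h_k`, coefficients of `exp (- ∑ B_{G_j} y^j)` -/
noncomputable def hz (g₀ : ℝ → ℝ) (R K : ℕ) (T t : ℝ) (k : ℕ) : ℂ :=
  cf (-1) (fun j => ev t (bb (Gj g₀ R K j) T)) k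

/-- the mass of the arc `(φ - a, φ]` modulo `2 π` of the measure `∑ κ_i δ_{θ_i}` -/
noncomputable def arcM {ι : Type*} (κ θ : ι → ℝ) (a φ : ℝ) : ℝ :=
  open Classical in ∑' i, if ∃ n : ℤ, φ - a < θ i + 2 * π * n ∧ θ i + 2 * π * n ≤ φ then κ i else 0

/-- `t` is good: no multiple zeros and no two zeros at distance `< b` (in units of the mean spacing) within distance `Q`
of `t`, and the zeros beyond `Q` carry mass at most `ε`. -/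
structure Good {ι : Type*} (γ w : ι → ℝ) (χ : ℝ → ℝ) (R : ℕ) (b Q ε L t : ℝ) : Prop where
  simple : ∀ i, |xx γ L t i| ≤ Q → w i ≤ 1
  sep : ∀ i j, i ≠ j → |xx γ L t i| ≤ Q → |xx γ L t j| ≤ Q → b ≤ |xx γ L t i - xx γ L t j|
  tail : (open Classical in ∑' i, if Q < |xx γ L t i| then w i * cosT χ (xx γ L t i / R) else 0) ≤ ε

end Pool.Agent.H67.HF
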